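import Pool.Agent.V5helper28.KP.Stm

/-!
# Project KP, job PCE: the pieces of level `n`
-/

set_option autoImplicit false

namespace Pool.Agent.V5helper16.KP

open MeasureTheory Set
open Pool.Agent.V5helper28.SSK
open Pool.Agent.V5helper28.KP (Sw)
open scoped ENNReal Pointwise

theorem X_snoc {d : ℕ} {I : Type} (c : I → E d) (r : ℝ) (n : ℕ) (u : Fin n → I) (i : I) :
    X c r (n + 1) (Fin.snoc (α := fun _ => I) u i) = r ^ n • c i + X c r n u := by
  unfold X
  rw [Fin.sum_univ_castSucc, add_comm]
  congr 1
  · simp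
  · exact Finset.sum_congr rfl fun j _ => by simp

theorem Sw_snoc {d : ℕ} {I : Type} (v a : I → E d) (r : ℝ) (n : ℕ) (u : Fin n → I) (i : I) (z : E d × E d) :
    Sw v a r (n + 1) (Fin.snoc (α := fun _ => I) u i) z = Sw v a r n u (r • z + (v i, a i)) := by
  unfold Sw
  rw [X_snoc, X_snoc, smul_add, smul_smul, ← pow_succ, add_assoc]
  congr 1

theorem t_PCE : Pool.Agent.V5helper28.KP.S_PCE := by
  intro d I _ _ v a r Γ hr0 hr1 hΓ n
  have h1 : ∀ n : ℕ, Γ = ⋃ u : Fin n → I, Sw v a r n u '' Γ := by
    intro n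
    induction n with
    | zero =>
      have h2 : ∀ u : Fin 0 → I, Sw v a r 0 u '' Γ = Γ := by
        intro u
        have h3 : Sw v a r 0 u = id := by
          funext z
          unfold Sw X
          simp
        rw [h3, image_id]
      rw [iUnion_congr h2, iUnion_const]
    | succ n ih =>
      ext z
      rw [mem_iUnion]
      constructor
      · intro hz
        rw [ih, mem_iUnion] at hz
        obtain ⟨u, y, hy, rfl⟩ := hz
        rw [hΓ, mem_iUnion] at hy
        obtain ⟨i, x, hx, rfl⟩ := hy
        exact ⟨Fin.snoc (α := fun _ => I) u i, x, hx, Sw_snoc v a r n u i x⟩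
      · rintro ⟨w, x, hx, rfl⟩
        rw [← Fin.snoc_init_self (α := fun _ => I) w, Sw_snoc, ih, mem_iUnion]
        refine ⟨Fin.init w, _, ?_, rfl⟩
        rw [hΓ, mem_iUnion]
        exact ⟨_, x, hx, rfl⟩
  refine ⟨h1 n, ?_, fun u => ?_⟩
  · conv_lhs => rw [h1 n]
    rw [image_iUnion]
    refine iUnion_congr fun u => ?_
    rw [image_image, image_image]
    rfl
  · have h2 : (fun x => r ^ n • x + X v r n u) '' (Prod.fst '' Γ) =
        (fun x => x + X v r n u) '' (r ^ n • (Prod.fst '' Γ)) := by
      rw [← image_smul]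
      simp only [image_image]
    rw [h2, image_add_right, measure_preimage_add_right, Measure.addHaar_smul, finrank_euclideanSpace_fin,
      abs_of_nonneg (by positivity)]

end Pool.Agent.V5helper16.KP
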