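import Pool.Agent.V5helper28.KP.Stm

/-!
# Project KP, job TL: few words have large weights (Markov and Chernoff by counting)
-/

set_option autoImplicit false

namespace Pool.Agent.V5helper16.KP

open Finset

theorem t_TL : Pool.Agent.V5helper28.KP.S_TL := by
  intro U _ _ f C δ Z hC hδ hf hZ hM
  classical
  obtain ⟨N, hN⟩ : ∃ N : ℝ, N = Fintype.card U := ⟨_, rfl⟩
  have hN0 : 0 < N := by rw [hN]; exact_mod_cast Fintype.card_pos
  rw [← hN] at hM ⊢
  obtain ⟨m, hm⟩ : ∃ m : ℝ, m = (∑ u, Real.log (f u)) / N := ⟨_, rfl⟩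
  rw [← hm]
  obtain ⟨h, hh⟩ : ∃ h : U → ℝ, ∀ u, h u = Real.log (f u) - m := ⟨_, fun _ => rfl⟩
  have hsum : ∑ u, h u = 0 := by
    have h1 : ∑ u : U, h u = ∑ u, Real.log (f u) - N * m := by
      rw [sum_congr rfl fun u _ => hh u, sum_sub_distrib, sum_const, card_univ, nsmul_eq_mul, ← hN]
    rw [h1, hm]
    field_simp
    ring
  obtain ⟨H, hH⟩ : ∃ H : ℝ, H = 1 + ∑ u, |h u| := ⟨_, rfl⟩
  have hHb : ∀ u, |h u| ≤ H := by
    intro u
    have h1 : |h u| ≤ ∑ u, |h u| := single_le_sum (f := fun u => |h u|) (fun u _ => abs_nonneg _) (mem_univ u)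
    linarith
  have hH1 : 1 ≤ H := by
    have h1 : 0 ≤ ∑ u, |h u| := sum_nonneg fun u _ => abs_nonneg _
    linarith
  obtain ⟨s, hs⟩ : ∃ s : ℝ, s = min (1 / H) (δ / (2 * H ^ 2)) := ⟨_, rfl⟩
  have hs0 : 0 < s := by rw [hs]; exact lt_min (by positivity) (by positivity)
  have hs1 : s * H ≤ 1 := by
    have h1 : s ≤ 1 / H := by rw [hs]; exact min_le_left _ _
    calc s * H ≤ 1 / H * H := mul_le_mul_of_nonneg_right h1 (by linarith)
      _ = 1 := by field_simp
  have hs2 : s * H ^ 2 ≤ δ / 2 := by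
    have h1 : s ≤ δ / (2 * H ^ 2) := by rw [hs]; exact min_le_right _ _
    calc s * H ^ 2 ≤ δ / (2 * H ^ 2) * H ^ 2 := mul_le_mul_of_nonneg_right h1 (by positivity)
      _ = δ / 2 := by field_simp
  -- the exponential moment
  have hexp : ∑ u, Real.exp (s * h u) ≤ N * Real.exp (s ^ 2 * H ^ 2) := by
    have h1 : ∀ u : U, Real.exp (s * h u) ≤ 1 + s * h u + s ^ 2 * H ^ 2 := by
      intro u
      have h2 : |s * h u| ≤ 1 := by
        rw [abs_mul, abs_of_pos hs0]
        exact (mul_le_mul_of_nonneg_left (hHb u) hs0.le).trans hs1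
      have h3 := (abs_le.1 (Real.abs_exp_sub_one_sub_id_le h2)).2
      have h4 : (s * h u) ^ 2 ≤ s ^ 2 * H ^ 2 := by
        rw [← mul_pow, ← sq_abs, abs_mul, abs_of_pos hs0]
        exact pow_le_pow_left₀ (by positivity) (mul_le_mul_of_nonneg_left (hHb u) hs0.le) 2
      linarith
    have h2 : ∑ u, Real.exp (s * h u) ≤ N * (1 + s ^ 2 * H ^ 2) := by
      refine (sum_le_sum fun u _ => h1 u).trans (le_of_eq ?_)
      rw [sum_add_distrib, sum_add_distrib, ← mul_sum, hsum, sum_const, sum_const, card_univ, nsmul_eq_mul,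
        nsmul_eq_mul, ← hN]
      ring
    have h3 : 1 + s ^ 2 * H ^ 2 ≤ Real.exp (s ^ 2 * H ^ 2) := by
      have := Real.add_one_le_exp (s ^ 2 * H ^ 2)
      linarith
    exact h2.trans (mul_le_mul_of_nonneg_left h3 hN0.le)
  obtain ⟨ρ, hρ⟩ : ∃ ρ : ℝ, ρ = max (1 / 2) (Real.exp (-(s * δ / 2))) := ⟨_, rfl⟩
  have hρ1 : 1 / 2 ≤ ρ := by rw [hρ]; exact le_max_left _ _
  have hρ2 : Real.exp (-(s * δ / 2)) ≤ ρ := by rw [hρ]; exact le_max_right _ _
  refine ⟨ρ, by linarith, ?_, fun k => ?_⟩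
  · rw [hρ]
    refine max_lt (by norm_num) ?_
    have h1 : 0 < s * δ := mul_pos hs0 hδ
    rw [← Real.exp_zero]
    exact Real.exp_lt_exp.2 (by linarith)
  -- Markov
  obtain ⟨A, hA⟩ : ∃ A : Finset (Fin k → U), A = univ.filter fun ω => (2 * C) ^ k < (∏ j, f (ω j))⁻¹ * Z k ω :=
    ⟨_, rfl⟩
  obtain ⟨B, hB⟩ : ∃ B : Finset (Fin k → U), B = univ.filter fun ω => k * δ < ∑ j, h (ω j) := ⟨_, rfl⟩
  have hprod : ∀ ω : Fin k → U, 0 < ∏ j, f (ω j) := fun ω => prod_pos fun j _ => hf _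
  have hAc : (A.card : ℝ) ≤ ρ ^ k * N ^ k := by
    have h1 : (A.card : ℝ) * (2 * C) ^ k ≤ (C * N) ^ k := by
      refine le_trans ?_ (hM k)
      rw [← nsmul_eq_mul, ← sum_const]
      refine (sum_le_sum fun ω hω => ?_).trans (sum_le_univ_sum_of_nonneg (s := A) fun ω => ?_)
      · rw [hA, mem_filter] at hω
        exact hω.2.le
      · exact mul_nonneg (inv_nonneg.2 (hprod ω).le) (hZ k ω)
    have h2 : (A.card : ℝ) ≤ (1 / 2) ^ k * N ^ k := by
      have h3 : (0 : ℝ) < (2 * C) ^ k := by positivity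
      rw [← le_div_iff₀ h3] at h1
      refine h1.trans (le_of_eq ?_)
      rw [← div_pow, ← mul_pow]
      congr 1
      field_simp
    exact h2.trans (mul_le_mul_of_nonneg_right (pow_le_pow_left₀ (by norm_num) hρ1 k) (by positivity))
  -- Chernoff
  have hBc : (B.card : ℝ) ≤ ρ ^ k * N ^ k := by
    have h1 : (B.card : ℝ) * Real.exp (s * (k * δ)) ≤ (N * Real.exp (s ^ 2 * H ^ 2)) ^ k := by
      calc (B.card : ℝ) * Real.exp (s * (k * δ)) ≤ ∑ ω : Fin k → U, ∏ j, Real.exp (s * h (ω j)) := by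
            rw [← nsmul_eq_mul, ← sum_const]
            refine (sum_le_sum fun ω hω => ?_).trans (sum_le_univ_sum_of_nonneg (s := B) fun ω => ?_)
            · rw [hB, mem_filter] at hω
              rw [← Real.exp_sum, ← mul_sum]
              exact Real.exp_le_exp.2 (mul_le_mul_of_nonneg_left hω.2.le hs0.le)
            · exact prod_nonneg fun j _ => (Real.exp_pos _).le
        _ = (∑ u, Real.exp (s * h u)) ^ k := (Fintype.sum_pow (fun u => Real.exp (s * h u)) k).symm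
        _ ≤ _ := pow_le_pow_left₀ (sum_nonneg fun u _ => (Real.exp_pos _).le) hexp k
    have h2 : (B.card : ℝ) ≤ (N * Real.exp (s ^ 2 * H ^ 2)) ^ k / Real.exp (s * (k * δ)) := by
      rwa [le_div_iff₀ (Real.exp_pos _)]
    have h3 : (N * Real.exp (s ^ 2 * H ^ 2)) ^ k / Real.exp (s * (k * δ)) =
        N ^ k * Real.exp (s ^ 2 * H ^ 2 - s * δ) ^ k := by
      rw [mul_pow, ← Real.exp_nat_mul, ← Real.exp_nat_mul, mul_div_assoc, ← Real.exp_sub]
      congr 2
      ring
    have h4 : Real.exp (s ^ 2 * H ^ 2 - s * δ) ≤ ρ := by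
      refine le_trans (Real.exp_le_exp.2 ?_) hρ2
      have h5 := mul_le_mul_of_nonneg_left hs2 hs0.le
      nlinarith
    rw [h3] at h2
    refine h2.trans ?_
    rw [mul_comm (ρ ^ k)]
    exact mul_le_mul_of_nonneg_left (pow_le_pow_left₀ (Real.exp_pos _).le h4 k) (by positivity)
  have hsub : (univ.filter fun ω : Fin k → U => (2 * C * Real.exp (m + δ)) ^ k < Z k ω) ⊆ A ∪ B := by
    intro ω hω
    rw [mem_filter] at hω
    by_contra hcon
    rw [mem_union, not_or, hA, hB, mem_filter, mem_filter] at hcon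
    have h1 : (∏ j, f (ω j))⁻¹ * Z k ω ≤ (2 * C) ^ k := le_of_not_gt fun h2 => hcon.1 ⟨mem_univ _, h2⟩
    have h2 : ∑ j, h (ω j) ≤ k * δ := le_of_not_gt fun h3 => hcon.2 ⟨mem_univ _, h3⟩
    have h3 : Z k ω ≤ (2 * C) ^ k * ∏ j, f (ω j) := by
      rwa [inv_mul_le_iff₀ (hprod ω), mul_comm] at h1
    have h4 : ∏ j, f (ω j) ≤ Real.exp (m + δ) ^ k := by
      have h5 : ∏ j, f (ω j) = Real.exp (∑ j, (h (ω j) + m)) := by
        rw [Real.exp_sum]
        refine prod_congr rfl fun j _ => ?_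
        rw [hh, sub_add_cancel, Real.exp_log (hf _)]
      rw [h5, ← Real.exp_nat_mul]
      refine Real.exp_le_exp.2 ?_
      rw [sum_add_distrib, sum_const, card_univ, Fintype.card_fin, nsmul_eq_mul]
      linarith
    have h5 : (2 * C) ^ k * ∏ j, f (ω j) ≤ (2 * C) ^ k * Real.exp (m + δ) ^ k :=
      mul_le_mul_of_nonneg_left h4 (by positivity)
    rw [← mul_pow] at h5
    exact absurd (h3.trans h5) (not_le.2 hω.2)
  rw [Nat.card_eq_fintype_card, Fintype.card_subtype]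
  have h1 : ((univ.filter fun ω : Fin k → U => (2 * C * Real.exp (m + δ)) ^ k < Z k ω).card : ℝ) ≤
      A.card + B.card := by
    have h2 := (card_le_card hsub).trans (card_union_le A B)
    exact_mod_cast h2
  refine le_trans (le_of_eq ?_) (h1.trans ((add_le_add hAc hBc).trans (le_of_eq (by ring))))
  congr!

end Pool.Agent.V5helper16.KP
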